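import Mathlib
import Pool.Agent.TH407.MV.Defs
set_option autoImplicit false

/-!
# The tail is in `L⁴`
-/

namespace Pool.Agent.TH55.MV

open MeasureTheory Set Complex Pool.Agent.TH407.MV
open scoped ENNReal NNReal Real ComplexConjugate

/-- the square root of the kernel -/
noncomputable def rr (u : ℝ) : ℝ≥0∞ := ENNReal.ofReal (1 / (1 + |u|))

theorem rr_meas : Measurable rr := by
  unfold rr
  fun_prop

theorem rr_le_one (u : ℝ) : rr u ≤ 1 := by
  unfold rr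
  rw [ENNReal.ofReal_le_one, div_le_one (by positivity)]
  linarith [abs_nonneg u]

theorem rr_anti {a b : ℝ} (h : |a| ≤ |b|) : rr b ≤ rr a := by
  unfold rr
  apply ENNReal.ofReal_le_ofReal
  exact one_div_le_one_div_of_le (by positivity) (by linarith)

theorem cs {α : Type*} [MeasurableSpace α] (μ : Measure α) {r G : α → ℝ≥0∞} (hr : Measurable r)
    (hG : Measurable G) :
    (∫⁻ a, r a ^ 2 * G a ∂μ) ^ 2 ≤ (∫⁻ a, r a ^ 2 ∂μ) * ∫⁻ a, r a ^ 2 * G a ^ 2 ∂μ := by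
  have h := ENNReal.lintegral_mul_le_Lp_mul_Lq μ Real.HolderConjugate.two_two hr.aemeasurable
    (hr.mul hG).aemeasurable
  have e1 : ∫⁻ a, (r * (r * G)) a ∂μ = ∫⁻ a, r a ^ 2 * G a ∂μ := by
    apply lintegral_congr
    intro a
    simp only [Pi.mul_apply]
    ring
  have e2 : ∫⁻ a, r a ^ (2 : ℝ) ∂μ = ∫⁻ a, r a ^ 2 ∂μ := lintegral_congr fun a => ENNReal.rpow_two _
  have e3 : ∫⁻ a, (r * G) a ^ (2 : ℝ) ∂μ = ∫⁻ a, r a ^ 2 * G a ^ 2 ∂μ := by
    apply lintegral_congr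
    intro a
    rw [ENNReal.rpow_two, Pi.mul_apply, mul_pow]
  rw [e1, e2, e3] at h
  calc _ ≤ ((∫⁻ a, r a ^ 2 ∂μ) ^ (1 / 2 : ℝ) * (∫⁻ a, r a ^ 2 * G a ^ 2 ∂μ) ^ (1 / 2 : ℝ)) ^ 2 :=
        pow_le_pow_left' h 2
    _ = _ := by
        rw [mul_pow, ← ENNReal.rpow_natCast, ← ENNReal.rpow_natCast, ← ENNReal.rpow_mul,
          ← ENNReal.rpow_mul]
        norm_num

theorem K1_lt : ∫⁻ w : ℝ, rr w ^ 2 < ∞ := by
  have h := finite_integral_one_add_norm (E := ℝ) (μ := volume) (r := 2) (by simp)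
  refine lt_of_le_of_lt (lintegral_mono fun w => ?_) h
  show rr w ^ 2 ≤ _
  unfold rr
  rw [← ENNReal.ofReal_pow (by positivity)]
  apply ENNReal.ofReal_le_ofReal
  rw [Real.norm_eq_abs, Real.rpow_neg (by positivity), Real.rpow_two, one_div, inv_pow]

theorem K2_lt : ∫⁻ ρ in Ioi (0 : ℝ), ENNReal.ofReal ρ * rr ρ ^ 4 < ∞ := by
  have h := finite_integral_one_add_norm (E := ℝ) (μ := volume) (r := 3) (by simp)
  refine lt_of_le_of_lt ?_ h
  refine le_trans (setLIntegral_mono' measurableSet_Ioi fun ρ hρ => ?_) (setLIntegral_le_lintegral _ _)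
  have hρ0 : 0 < ρ := hρ
  unfold rr
  rw [← ENNReal.ofReal_pow (by positivity), ← ENNReal.ofReal_mul hρ0.le]
  apply ENNReal.ofReal_le_ofReal
  have e : (1 + ‖ρ‖) ^ (-3 : ℝ) = 1 / (1 + ρ) ^ 3 := by
    rw [Real.norm_eq_abs, abs_of_pos hρ0, Real.rpow_neg (by positivity), one_div]
    norm_cast
  rw [e, abs_of_pos hρ0, div_pow, one_pow, mul_one_div, div_le_div_iff₀ (by positivity)
    (by positivity)]
  have : 0 ≤ (1 + ρ) ^ 3 := by positivity
  nlinarith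

theorem sin_lower {v : ℝ} (hv : |v| ≤ π / 2) : |2 / π * v| ≤ |Real.sin v| := by
  rw [Real.abs_sin_eq_sin_abs_of_abs_le_pi (by linarith [Real.pi_pos]), abs_mul,
    abs_of_pos (by positivity)]
  exact Real.mul_le_sin (abs_nonneg v) hv

theorem rr_cos {ρ u v : ℝ} (hρ : 0 ≤ ρ) (hv : |v| ≤ π / 2) (h : |Real.cos u| = |Real.sin v|) :
    rr (ρ * Real.cos u) ^ 2 ≤ rr (2 * ρ / π * v) ^ 2 := by
  apply pow_le_pow_left'
  apply rr_anti
  have h1 := sin_lower hv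
  rw [← h] at h1
  calc |2 * ρ / π * v| = ρ * |2 / π * v| := by
        rw [show 2 * ρ / π * v = ρ * (2 / π * v) by ring, abs_mul, abs_of_nonneg hρ]
    _ ≤ ρ * |Real.cos u| := mul_le_mul_of_nonneg_left h1 hρ
    _ = |ρ * Real.cos u| := by rw [abs_mul, abs_of_nonneg hρ]

theorem pw {ρ : ℝ} (hρ : 0 ≤ ρ) {u : ℝ} (hu : u ∈ Ioo (-(2 * π)) (2 * π)) :
    rr (ρ * Real.cos u) ^ 2 ≤ rr (2 * ρ / π * (u + 3 * π / 2)) ^ 2 +
      rr (2 * ρ / π * (u + π / 2)) ^ 2 + rr (2 * ρ / π * (u + -(π / 2))) ^ 2 +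
      rr (2 * ρ / π * (u + -(3 * π / 2))) ^ 2 := by
  obtain ⟨hu1, hu2⟩ := hu
  have hpi := Real.pi_pos
  rcases lt_or_ge u (-π) with h1 | h1
  · have h := rr_cos (u := u) (v := u + 3 * π / 2) hρ (by rw [abs_le]; constructor <;> linarith) (by
      rw [show u + 3 * π / 2 = (u + π / 2) + π by ring, Real.sin_add_pi, Real.sin_add_pi_div_two,
        abs_neg])
    exact h.trans (le_add_right (le_add_right (le_add_right le_rfl)))
  rcases lt_or_ge u 0 with h2 | h2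
  · have h := rr_cos (u := u) (v := u + π / 2) hρ (by rw [abs_le]; constructor <;> linarith) (by
      rw [Real.sin_add_pi_div_two])
    exact h.trans (le_add_right (le_add_right (le_add_left le_rfl)))
  rcases lt_or_ge u π with h3 | h3
  · have h := rr_cos (u := u) (v := u + -(π / 2)) hρ (by rw [abs_le]; constructor <;> linarith) (by
      rw [← sub_eq_add_neg, Real.sin_sub_pi_div_two, abs_neg])
    exact h.trans (le_add_right (le_add_left le_rfl))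
  · have h := rr_cos (u := u) (v := u + -(3 * π / 2)) hρ (by rw [abs_le]; constructor <;> linarith)
      (by
        rw [show u + -(3 * π / 2) = (u - π / 2) - π by ring, Real.sin_sub_pi,
          Real.sin_sub_pi_div_two, neg_neg])
    exact h.trans (le_add_left le_rfl)

theorem int_pw {c : ℝ} (hc : 0 < c) (z : ℝ) :
    ∫⁻ u : ℝ, rr (c * (u + z)) ^ 2 = ENNReal.ofReal (1 / c) * ∫⁻ w : ℝ, rr w ^ 2 := by
  have hm : Measurable fun w : ℝ => rr w ^ 2 := rr_meas.pow_const 2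
  rw [lintegral_add_right_eq_self (fun u : ℝ => rr (c * u) ^ 2) z]
  have h1 := lintegral_map (μ := volume) hm (measurable_const_mul c)
  rw [Real.map_volume_mul_left hc.ne', lintegral_smul_measure] at h1
  rw [← h1, abs_of_pos (inv_pos.2 hc), one_div, smul_eq_mul]

/-- the constant -/
noncomputable def AA : ℝ≥0∞ :=
  ENNReal.ofReal (8 * π) + ENNReal.ofReal (4 * π) * ∫⁻ w : ℝ, rr w ^ 2

theorem AA_lt : AA < ∞ := by
  unfold AA
  exact ENNReal.add_lt_top.2 ⟨ENNReal.ofReal_lt_top,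
    ENNReal.mul_lt_top ENNReal.ofReal_lt_top K1_lt⟩

theorem ang_le {ρ : ℝ} (hρ : 0 ≤ ρ) {α : ℝ} (hα : α ∈ Ioo (-π) π) :
    ∫⁻ θ in Ioo (-π) π, rr (ρ * Real.cos (θ - α)) ^ 2 ≤ AA * rr ρ := by
  have hpi := Real.pi_pos
  have h1 : ∫⁻ θ in Ioo (-π) π, rr (ρ * Real.cos (θ - α)) ^ 2 ≤
      ∫⁻ u in Ioo (-(2 * π)) (2 * π), rr (ρ * Real.cos u) ^ 2 := by
    rw [← lintegral_indicator measurableSet_Ioo, ← lintegral_indicator measurableSet_Ioo,
      ← lintegral_sub_right_eq_self (fun u => (Ioo (-(2 * π)) (2 * π)).indicator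
        (fun u => rr (ρ * Real.cos u) ^ 2) u) α]
    apply lintegral_mono
    intro θ
    by_cases hθ : θ ∈ Ioo (-π) π
    · have hθ' : θ - α ∈ Ioo (-(2 * π)) (2 * π) := by
        constructor
        · linarith [hθ.1, hα.2]
        · linarith [hθ.2, hα.1]
      simp only [Set.indicator_of_mem hθ, Set.indicator_of_mem hθ']
      exact le_rfl
    · simp only [Set.indicator_of_notMem hθ]
      exact zero_le
  refine h1.trans ?_
  have hrr : rr ρ = ENNReal.ofReal (1 / (1 + ρ)) := by unfold rr; rw [abs_of_nonneg hρ]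
  rcases le_or_gt ρ 1 with h2 | h2
  · calc ∫⁻ u in Ioo (-(2 * π)) (2 * π), rr (ρ * Real.cos u) ^ 2 ≤
        ∫⁻ _ in Ioo (-(2 * π)) (2 * π), 1 := lintegral_mono fun u => pow_le_one₀ zero_le (rr_le_one _)
      _ = ENNReal.ofReal (4 * π) := by
          rw [setLIntegral_one, Real.volume_Ioo]
          congr 1
          ring
      _ ≤ ENNReal.ofReal (8 * π) * rr ρ := by
          rw [hrr, ← ENNReal.ofReal_mul (by positivity)]
          apply ENNReal.ofReal_le_ofReal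
          rw [mul_one_div, le_div_iff₀ (by positivity)]
          nlinarith
      _ ≤ AA * rr ρ := by
          unfold AA
          gcongr
          exact le_self_add
  · have hc : 0 < 2 * ρ / π := by positivity
    have hm : ∀ z : ℝ, Measurable fun u : ℝ => rr (2 * ρ / π * (u + z)) ^ 2 := by
      intro z
      exact (rr_meas.comp (by fun_prop)).pow_const 2
    calc ∫⁻ u in Ioo (-(2 * π)) (2 * π), rr (ρ * Real.cos u) ^ 2 ≤
        ∫⁻ u in Ioo (-(2 * π)) (2 * π), (rr (2 * ρ / π * (u + 3 * π / 2)) ^ 2 +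
          rr (2 * ρ / π * (u + π / 2)) ^ 2 + rr (2 * ρ / π * (u + -(π / 2))) ^ 2 +
          rr (2 * ρ / π * (u + -(3 * π / 2))) ^ 2) :=
          setLIntegral_mono' measurableSet_Ioo fun u hu => pw hρ hu
      _ ≤ ∫⁻ u, (rr (2 * ρ / π * (u + 3 * π / 2)) ^ 2 +
          rr (2 * ρ / π * (u + π / 2)) ^ 2 + rr (2 * ρ / π * (u + -(π / 2))) ^ 2 +
          rr (2 * ρ / π * (u + -(3 * π / 2))) ^ 2) := setLIntegral_le_lintegral _ _
      _ = 4 * (ENNReal.ofReal (1 / (2 * ρ / π)) * ∫⁻ w : ℝ, rr w ^ 2) := by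
          rw [lintegral_add_right _ (hm _), lintegral_add_right _ (hm _),
            lintegral_add_right _ (hm _), int_pw hc, int_pw hc, int_pw hc, int_pw hc]
          ring
      _ ≤ ENNReal.ofReal (4 * π) * (∫⁻ w : ℝ, rr w ^ 2) * rr ρ := by
          have e1 : (4 : ℝ≥0∞) * (ENNReal.ofReal (1 / (2 * ρ / π)) * ∫⁻ w : ℝ, rr w ^ 2) =
              ENNReal.ofReal (2 * π / ρ) * ∫⁻ w : ℝ, rr w ^ 2 := by
            rw [← mul_assoc, show (4 : ℝ≥0∞) = ENNReal.ofReal 4 by norm_num,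
              ← ENNReal.ofReal_mul (by norm_num)]
            congr 2
            field_simp
            ring
          have e2 : ENNReal.ofReal (4 * π) * (∫⁻ w : ℝ, rr w ^ 2) * rr ρ =
              ENNReal.ofReal (4 * π / (1 + ρ)) * ∫⁻ w : ℝ, rr w ^ 2 := by
            rw [hrr, mul_right_comm, ← ENNReal.ofReal_mul (by positivity), mul_one_div]
          rw [e1, e2]
          gcongr ENNReal.ofReal ?_ * _
          rw [div_le_div_iff₀ (by positivity) (by positivity)]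
          nlinarith
      _ ≤ AA * rr ρ := by
          unfold AA
          gcongr
          exact le_add_self

/-- the integral of the kernel over the angles -/
noncomputable def Sy (y : ℝ × ℝ) : ℝ≥0∞ := ∫⁻ θ in Ioo (-π) π, rr (dt y θ) ^ 2

theorem dt_cont : Continuous fun p : (ℝ × ℝ) × ℝ => dt p.1 p.2 := by
  unfold dt
  fun_prop

theorem dt_meas (y : ℝ × ℝ) : Measurable fun θ => dt y θ :=
  (dt_cont.comp (continuous_const.prodMk continuous_id)).measurable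

theorem dt_meas' (θ : ℝ) : Measurable fun y => dt y θ :=
  (dt_cont.comp (continuous_id.prodMk continuous_const)).measurable

theorem Sy_meas : Measurable Sy := by
  have h : Measurable fun p : (ℝ × ℝ) × ℝ => rr (dt p.1 p.2) ^ 2 :=
    (rr_meas.comp dt_cont.measurable).pow_const 2
  exact h.lintegral_prod_right'

theorem dt_polar (ρ α θ : ℝ) : dt (ρ * Real.cos α, ρ * Real.sin α) θ = ρ * Real.cos (θ - α) := by
  unfold dt
  rw [Real.cos_sub]
  ring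

theorem main_int {θ : ℝ} (hθ : θ ∈ Ioo (-π) π) :
    ∫⁻ y : ℝ × ℝ, Sy y ^ 3 * rr (dt y θ) ^ 2 ≤
      AA ^ 4 * ∫⁻ ρ in Ioi (0 : ℝ), ENNReal.ofReal ρ * rr ρ ^ 4 := by
  rw [← lintegral_comp_polarCoord_symm, polarCoord_target]
  have hm : Measurable fun p : ℝ × ℝ => (ENNReal.ofReal p.1 * (AA * rr p.1) ^ 3) *
      rr (p.1 * Real.cos (p.2 - θ)) ^ 2 := by
    have h1 : Measurable fun p : ℝ × ℝ => rr p.1 := rr_meas.comp measurable_fst
    have h2 : Measurable fun p : ℝ × ℝ => rr (p.1 * Real.cos (p.2 - θ)) :=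
      rr_meas.comp (by fun_prop)
    have h3 : Measurable fun p : ℝ × ℝ => ENNReal.ofReal p.1 :=
      ENNReal.measurable_ofReal.comp measurable_fst
    exact (h3.mul ((h1.const_mul AA).pow_const 3)).mul (h2.pow_const 2)
  calc ∫⁻ p in Ioi (0 : ℝ) ×ˢ Ioo (-π) π, ENNReal.ofReal p.1 •
        (Sy (polarCoord.symm p) ^ 3 * rr (dt (polarCoord.symm p) θ) ^ 2)
      ≤ ∫⁻ p in Ioi (0 : ℝ) ×ˢ Ioo (-π) π, (ENNReal.ofReal p.1 * (AA * rr p.1) ^ 3) *
          rr (p.1 * Real.cos (p.2 - θ)) ^ 2 := by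
        refine setLIntegral_mono' (measurableSet_Ioi.prod measurableSet_Ioo) fun p hp => ?_
        rw [polarCoord_symm_apply, smul_eq_mul, dt_polar, ← mul_assoc,
          ← Real.cos_neg (θ - p.2), neg_sub]
        gcongr
        unfold Sy
        simp only [dt_polar]
        exact ang_le (le_of_lt hp.1) hp.2
    _ = ∫⁻ ρ in Ioi (0 : ℝ), ∫⁻ α in Ioo (-π) π, (ENNReal.ofReal ρ * (AA * rr ρ) ^ 3) *
          rr (ρ * Real.cos (α - θ)) ^ 2 := by
        rw [Measure.volume_eq_prod, ← Measure.prod_restrict, lintegral_prod _ hm.aemeasurable]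
    _ ≤ ∫⁻ ρ in Ioi (0 : ℝ), (ENNReal.ofReal ρ * (AA * rr ρ) ^ 3) * (AA * rr ρ) := by
        refine setLIntegral_mono' measurableSet_Ioi fun ρ hρ => ?_
        rw [lintegral_const_mul]
        · gcongr
          exact ang_le (le_of_lt hρ) hθ
        · exact (rr_meas.comp (by fun_prop)).pow_const 2
    _ = AA ^ 4 * ∫⁻ ρ in Ioi (0 : ℝ), ENNReal.ofReal ρ * rr ρ ^ 4 := by
        rw [← lintegral_const_mul]
        · apply lintegral_congr
          intro ρ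
          ring
        · exact ENNReal.measurable_ofReal.mul (rr_meas.pow_const 4)

theorem tailL4 : TailL4 := by
  set K : ℝ≥0∞ := AA ^ 4 * ∫⁻ ρ in Ioi (0 : ℝ), ENNReal.ofReal ρ * rr ρ ^ 4 with hK
  have hKt : K ≠ ∞ := (ENNReal.mul_lt_top (ENNReal.pow_lt_top AA_lt) K2_lt).ne
  refine ⟨K.toNNReal, ?_⟩
  rw [ENNReal.coe_toNNReal hKt]
  intro R hR hRb g B hg hgB
  have hG : Measurable fun θ => ‖g θ‖ₑ := hg.enorm
  have hJ : ∀ y : ℝ × ℝ, ‖∫ θ in Ioo (-π) π, R (dt y θ) * g θ‖ₑ ≤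
      ∫⁻ θ in Ioo (-π) π, rr (dt y θ) ^ 2 * ‖g θ‖ₑ := by
    intro y
    refine (enorm_integral_le_lintegral_enorm _).trans (lintegral_mono fun θ => ?_)
    show ‖R (dt y θ) * g θ‖ₑ ≤ rr (dt y θ) ^ 2 * ‖g θ‖ₑ
    rw [enorm_mul]
    gcongr
    unfold rr
    rw [← ENNReal.ofReal_pow (by positivity), ← ofReal_norm]
    apply ENNReal.ofReal_le_ofReal
    rw [div_pow, one_pow]
    exact hRb _
  have hJ4 : ∀ y : ℝ × ℝ, ‖∫ θ in Ioo (-π) π, R (dt y θ) * g θ‖ₑ ^ 4 ≤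
      B ^ 2 * (Sy y ^ 3 * ∫⁻ θ in Ioo (-π) π, rr (dt y θ) ^ 2 * ‖g θ‖ₑ ^ 2) := by
    intro y
    have hrm : Measurable fun θ => rr (dt y θ) := rr_meas.comp (dt_meas y)
    have h1 := cs (volume.restrict (Ioo (-π) π)) hrm hG
    have h2 : ∫⁻ θ in Ioo (-π) π, rr (dt y θ) ^ 2 * ‖g θ‖ₑ ≤ B * Sy y := by
      unfold Sy
      rw [← lintegral_const_mul _ (hrm.pow_const 2)]
      refine lintegral_mono fun θ => ?_
      show rr (dt y θ) ^ 2 * ‖g θ‖ₑ ≤ B * rr (dt y θ) ^ 2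
      rw [mul_comm]
      gcongr
      exact hgB θ
    calc ‖∫ θ in Ioo (-π) π, R (dt y θ) * g θ‖ₑ ^ 4
        ≤ (∫⁻ θ in Ioo (-π) π, rr (dt y θ) ^ 2 * ‖g θ‖ₑ) ^ 4 := pow_le_pow_left' (hJ y) 4
      _ = (∫⁻ θ in Ioo (-π) π, rr (dt y θ) ^ 2 * ‖g θ‖ₑ) ^ 2 *
          (∫⁻ θ in Ioo (-π) π, rr (dt y θ) ^ 2 * ‖g θ‖ₑ) ^ 2 := by ring
      _ ≤ (B * Sy y) ^ 2 * (Sy y * ∫⁻ θ in Ioo (-π) π, rr (dt y θ) ^ 2 * ‖g θ‖ₑ ^ 2) :=
          mul_le_mul' (pow_le_pow_left' h2 2) h1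
      _ = _ := by ring
  have hm2 : Measurable fun p : (ℝ × ℝ) × ℝ => Sy p.1 ^ 3 * (rr (dt p.1 p.2) ^ 2 * ‖g p.2‖ₑ ^ 2) := by
    have h1 : Measurable fun p : (ℝ × ℝ) × ℝ => Sy p.1 := Sy_meas.comp measurable_fst
    have h2 : Measurable fun p : (ℝ × ℝ) × ℝ => rr (dt p.1 p.2) := rr_meas.comp dt_cont.measurable
    have h3 : Measurable fun p : (ℝ × ℝ) × ℝ => ‖g p.2‖ₑ := hG.comp measurable_snd
    exact (h1.pow_const 3).mul ((h2.pow_const 2).mul (h3.pow_const 2))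
  calc ∫⁻ y : ℝ × ℝ, ‖∫ θ in Ioo (-π) π, R (dt y θ) * g θ‖ₑ ^ 4
      ≤ ∫⁻ y : ℝ × ℝ, B ^ 2 * (Sy y ^ 3 * ∫⁻ θ in Ioo (-π) π, rr (dt y θ) ^ 2 * ‖g θ‖ₑ ^ 2) :=
        lintegral_mono hJ4
    _ = ∫⁻ y : ℝ × ℝ, B ^ 2 * ∫⁻ θ in Ioo (-π) π, Sy y ^ 3 * (rr (dt y θ) ^ 2 * ‖g θ‖ₑ ^ 2) := by
        apply lintegral_congr
        intro y
        rw [lintegral_const_mul]
        exact ((rr_meas.comp (dt_meas y)).pow_const 2).mul (hG.pow_const 2)
    _ = B ^ 2 * ∫⁻ y : ℝ × ℝ, ∫⁻ θ in Ioo (-π) π, Sy y ^ 3 * (rr (dt y θ) ^ 2 * ‖g θ‖ₑ ^ 2) := by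
        rw [lintegral_const_mul]
        exact hm2.lintegral_prod_right'
    _ = B ^ 2 * ∫⁻ θ in Ioo (-π) π, ∫⁻ y : ℝ × ℝ, Sy y ^ 3 * (rr (dt y θ) ^ 2 * ‖g θ‖ₑ ^ 2) := by
        rw [lintegral_lintegral_swap]
        exact hm2.aemeasurable
    _ ≤ B ^ 2 * ∫⁻ θ in Ioo (-π) π, K * ‖g θ‖ₑ ^ 2 := by
        refine mul_le_mul' le_rfl (setLIntegral_mono' measurableSet_Ioo fun θ hθ => ?_)
        calc ∫⁻ y : ℝ × ℝ, Sy y ^ 3 * (rr (dt y θ) ^ 2 * ‖g θ‖ₑ ^ 2)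
            = (∫⁻ y : ℝ × ℝ, Sy y ^ 3 * rr (dt y θ) ^ 2) * ‖g θ‖ₑ ^ 2 := by
              rw [← lintegral_mul_const]
              · apply lintegral_congr
                intro y
                ring
              · exact (Sy_meas.pow_const 3).mul ((rr_meas.comp (dt_meas' θ)).pow_const 2)
          _ ≤ K * ‖g θ‖ₑ ^ 2 := by
              gcongr
              exact main_int hθ
    _ = K * B ^ 2 * ∫⁻ θ in Ioo (-π) π, ‖g θ‖ₑ ^ 2 := by
        rw [lintegral_const_mul _ (hG.pow_const 2)]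
        ring

end Pool.Agent.TH55.MV
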